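import Mathlib
import Pool.Agent.V11216.NullFiniteCore

/-!
# MP_9624c8_gt : `∏ C_n^*` is not a countable union of Borel null-finite sets
-/

namespace Pool.Agent.Results.MP_9624c8_gt.NotSigmaNullFinite

open Set Filter Topology Pool.Agent.V11216.NullFiniteCore

/-- (1) The set `A = ∏ C_n^*` (with `C n` the group of `(n+2)`-nd roots of unity) is not a
countable union of Borel null-finite sets, and not even covered by countably many of them.
(2) More generally the same holds for `∏ G_n^*` whenever the `G_n` are finite (discrete)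
abelian groups with at least two elements whose orders tend to infinity. -/
theorem result :
    (∀ B : ℕ → Set (∀ n, C n), (∀ i, IsBorel (B i)) → (∀ i, NullFinite (B i)) →
      A ≠ (⋃ i, B i) ∧ ¬ A ⊆ ⋃ i, B i) ∧
    (∀ (G : ℕ → Type) [∀ n, CommGroup (G n)] [∀ n, TopologicalSpace (G n)]
      [∀ n, DiscreteTopology (G n)] [∀ n, Finite (G n)],
      Tendsto (fun n => Nat.card (G n)) atTop atTop → (∀ n, 1 < Nat.card (G n)) →
      ∀ B : ℕ → Set (∀ n, G n), (∀ i, IsBorel (B i)) → (∀ i, NullFinite (B i)) →
        ¬ {x : ∀ n, G n | ∀ n, x n ≠ 1} ⊆ ⋃ i, B i) :=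
  ⟨fun B hB hnf => ⟨fun h => A_not_covered B hB hnf h.subset, A_not_covered B hB hnf⟩,
    fun _ _ _ _ _ hcard htwo B hB hnf => no_cover hcard htwo B hB hnf⟩

end Pool.Agent.Results.MP_9624c8_gt.NotSigmaNullFinite
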